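import Pool.Agent.W645.WV.Stm

/-!
WV-HB: bounds and measurability of the Gaussian multipliers.
-/

set_option autoImplicit false

open MeasureTheory Set Complex
open scoped ENNReal

namespace Pool.Agent.W196.WV

open Pool.Agent.W645.WV
open Pool.Agent.W203.BE (T gn g1 ga S_BAS S_MEAS)

theorem ga_eq (κ a s : ℝ) :
    ga κ a s = ((κ * a : ℝ) : ℂ) + ((κ * (2 * Real.pi * a * s) : ℝ) : ℂ) * I := by
  apply Complex.ext <;> simp [ga]

theorem gn_bound (hB : S_BAS) {n : ℕ} {κ : ℝ} (hκ : 0 < κ) {a : Fin n → ℝ} (ha : a ∈ box n)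
    (s : ℝ) (x : Fin n → ℝ) :
    ‖gn (fun j => ga κ (a j) s) x‖ ≤ Real.sqrt (Real.pi / κ) ^ n := by
  rw [gn, norm_prod]
  calc ∏ j, ‖g1 (ga κ (a j) s) (x j)‖ ≤ ∏ _j : Fin n, Real.sqrt (Real.pi / κ) := by
        apply Finset.prod_le_prod (fun _ _ => norm_nonneg _)
        intro j _
        have ha1 : 1 ≤ a j := ha.1 j
        have hre : (ga κ (a j) s).re = κ * a j := rfl
        have hre0 : 0 < (ga κ (a j) s).re := by rw [hre]; positivity
        obtain ⟨-, -, h3, -⟩ := hB (ga κ (a j) s) hre0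
        rw [h3 (x j)]
        have hn : κ ≤ ‖ga κ (a j) s‖ := by
          calc κ ≤ κ * a j := by nlinarith
            _ = (ga κ (a j) s).re := hre.symm
            _ ≤ ‖ga κ (a j) s‖ := Complex.re_le_norm _
        have h4 : Real.sqrt (Real.pi / ‖ga κ (a j) s‖) ≤ Real.sqrt (Real.pi / κ) := by
          apply Real.sqrt_le_sqrt
          apply div_le_div_of_nonneg_left Real.pi_pos.le hκ hn
        have h5 : Real.exp (-(Real.pi ^ 2 * (ga κ (a j) s).re / ‖ga κ (a j) s‖ ^ 2 * x j ^ 2)) ≤ 1 := by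
          rw [Real.exp_le_one_iff]
          have : 0 ≤ Real.pi ^ 2 * (ga κ (a j) s).re / ‖ga κ (a j) s‖ ^ 2 * x j ^ 2 := by positivity
          linarith
        calc _ ≤ Real.sqrt (Real.pi / κ) * 1 :=
              mul_le_mul h4 h5 (Real.exp_pos _).le (Real.sqrt_nonneg _)
          _ = _ := mul_one _
    _ = Real.sqrt (Real.pi / κ) ^ n := by simp

theorem hb (hB : S_BAS) (hM : S_MEAS) : S_HB := by
  intro n κ hκ f hf hfi
  constructor
  · have h1 : Measurable (fun (q : (Fin n → ℝ) × ℝ) (j : Fin n) => ga κ (q.1 j) q.2) := by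
      rw [measurable_pi_iff]
      intro j
      simp only [ga_eq]
      have h2 : Measurable (fun q : (Fin n → ℝ) × ℝ => q.1 j) :=
        (measurable_pi_apply j).comp measurable_fst
      have h3 : Measurable (fun q : (Fin n → ℝ) × ℝ => ((κ * q.1 j : ℝ) : ℂ)) :=
        Complex.measurable_ofReal.comp (h2.const_mul κ)
      have h4 : Measurable (fun q : (Fin n → ℝ) × ℝ =>
          ((κ * (2 * Real.pi * q.1 j * q.2) : ℝ) : ℂ)) :=
        Complex.measurable_ofReal.comp (((h2.const_mul (2 * Real.pi)).mul measurable_snd).const_mul κ)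
      exact h3.add (h4.mul_const I)
    exact hM n ((Fin n → ℝ) × ℝ) (fun q j => ga κ (q.1 j) q.2) (fun _ => f) h1
      (hf.comp measurable_snd)
  · refine ⟨Real.sqrt (Real.pi / κ) ^ n * ∫ y, ‖f y‖, ?_⟩
    intro a ha s x
    rw [T, ← integral_const_mul]
    apply norm_integral_le_of_norm_le (hfi.norm.const_mul _)
    refine Filter.Eventually.of_forall fun y => ?_
    rw [norm_mul]
    exact mul_le_mul_of_nonneg_right (gn_bound hB hκ ha s _) (norm_nonneg _)

end Pool.Agent.W196.WV
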